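import Pool.Agent.Helper51.PF.Goals

/-! Packet PF-PTQ -/

set_option autoImplicit false

namespace Pool.Agent.Helper48.PF

open Finset
open Pool.Agent.Helper51.PF

open Classical in
/-- indicator -/
noncomputable def ind (A : Prop) : ℝ := if A then 1 else 0

theorem ind_true {A : Prop} (h : A) : ind A = 1 := by simp [ind, h]

theorem ind_false {A : Prop} (h : ¬ A) : ind A = 0 := by simp [ind, h]

theorem ind_nonneg (A : Prop) : 0 ≤ ind A := by
  by_cases h : A
  · rw [ind_true h]; norm_num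
  · rw [ind_false h]

theorem ind_le_one (A : Prop) : ind A ≤ 1 := by
  by_cases h : A
  · rw [ind_true h]
  · rw [ind_false h]; norm_num

theorem one_sub_ind (A : Prop) : 1 - ind A = ind (¬ A) := by
  by_cases h : A
  · rw [ind_true h, ind_false (fun h' => h' h)]; norm_num
  · rw [ind_false h, ind_true h]; norm_num

theorem prod_ind (R : Finset ℕ) (A : ℕ → Prop) : ∏ r ∈ R, ind (A r) = ind (∀ r ∈ R, A r) := by
  by_cases h : ∀ r ∈ R, A r
  · rw [ind_true h]
    exact prod_eq_one fun r hr => ind_true (h r hr)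
  · rw [ind_false h]
    push Not at h
    obtain ⟨r, hr, h⟩ := h
    exact prod_eq_zero hr (ind_false h)

theorem pr_eq {Ω : Type} [Fintype Ω] (A : Ω → Prop) :
    pr A = (∑ τ, ind (A τ)) / Fintype.card Ω := by
  classical
  unfold pr ind
  congr 1
  rw [Finset.card_filter]
  push_cast
  refine sum_congr rfl fun τ _ => ?_
  by_cases h : A τ <;> simp [h]

theorem pr_mono {Ω : Type} [Fintype Ω] {A A' : Ω → Prop} (h : ∀ τ, A τ → A' τ) : pr A ≤ pr A' := by
  rw [pr_eq, pr_eq]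
  apply div_le_div_of_nonneg_right _ (by positivity)
  refine sum_le_sum fun τ _ => ?_
  by_cases h1 : A τ
  · rw [ind_true h1, ind_true (h τ h1)]
  · rw [ind_false h1]
    exact ind_nonneg _

theorem pr_congr {Ω : Type} [Fintype Ω] {A A' : Ω → Prop} (h : ∀ τ, A τ ↔ A' τ) : pr A = pr A' :=
  le_antisymm (pr_mono fun τ => (h τ).1) (pr_mono fun τ => (h τ).2)

theorem pr_union {Ω : Type} [Fintype Ω] (S : Finset ℕ) (A : Ω → Prop) (A' : Ω → Prop)
    (E : ℕ → Ω → Prop) (h : ∀ τ, A τ → A' τ ∨ ∃ r ∈ S, E r τ) :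
    pr A ≤ pr A' + ∑ r ∈ S, pr (E r) := by
  simp only [pr_eq]
  rw [← sum_div, ← add_div]
  apply div_le_div_of_nonneg_right _ (by positivity)
  rw [sum_comm, ← sum_add_distrib]
  refine sum_le_sum fun τ _ => ?_
  have h0 : 0 ≤ ∑ r ∈ S, ind (E r τ) := sum_nonneg fun r _ => ind_nonneg _
  by_cases h1 : A τ
  · rw [ind_true h1]
    rcases h τ h1 with h2 | ⟨r, hr, h2⟩
    · rw [ind_true h2]
      linarith
    · have h3 : ind (E r τ) ≤ ∑ r ∈ S, ind (E r τ) :=
        single_le_sum (f := fun r => ind (E r τ)) (fun r _ => ind_nonneg _) hr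
      rw [ind_true h2] at h3
      have := ind_nonneg (A' τ)
      linarith
  · rw [ind_false h1]
    have := ind_nonneg (A' τ)
    linarith

section
variable {G : Type} [CommGroup G] {n : ℕ} (v : Fin n → G) (B : ℕ → Finset G) (L : ℕ)

theorem noFirst (τ : Equiv.Perm (Fin n)) :
    (∀ r ∈ Ioo L (n - L), ¬ FirstHit v B L τ r) ↔ ∀ r ∈ Ioo L (n - L), Tpr v τ r ∉ B r := by
  constructor
  · intro h r
    induction r using Nat.strong_induction_on with
    | _ r ih =>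
      intro hr hB
      exact h r hr ⟨hB, fun r2 hr2 hlt _ => ih r2 hlt hr2⟩
  · intro h r hr hF
    exact h r hr hF.1

theorem SS_eq (j : ℕ) : SS v B L j = (∑ τ : Equiv.Perm (Fin n),
    esum (Ioo L (n - L)) (fun r => ind (FirstHit v B L τ r)) j) /
      Fintype.card (Equiv.Perm (Fin n)) := by
  unfold SS esum
  simp only [pr_eq, prod_ind]
  rw [← sum_div, sum_comm]

theorem avg (hBON : G_BON) (K : ℕ) :
    (Even K → pr (fun τ : Equiv.Perm (Fin n) => ∀ r ∈ Ioo L (n - L), Tpr v τ r ∉ B r) ≤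
      ∑ j ∈ range (K + 1), (-1 : ℝ) ^ j * SS v B L j) ∧
    (Odd K → ∑ j ∈ range (K + 1), (-1 : ℝ) ^ j * SS v B L j ≤
      pr (fun τ : Equiv.Perm (Fin n) => ∀ r ∈ Ioo L (n - L), Tpr v τ r ∉ B r)) := by
  have hM : (0 : ℝ) ≤ (Fintype.card (Equiv.Perm (Fin n)) : ℝ) := by positivity
  have h1 : pr (fun τ : Equiv.Perm (Fin n) => ∀ r ∈ Ioo L (n - L), Tpr v τ r ∉ B r) =
      (∑ τ : Equiv.Perm (Fin n), ∏ r ∈ Ioo L (n - L), (1 - ind (FirstHit v B L τ r))) /
        Fintype.card (Equiv.Perm (Fin n)) := by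
    rw [pr_eq]
    congr 1
    refine sum_congr rfl fun τ _ => ?_
    simp only [one_sub_ind]
    rw [prod_ind]
    by_cases h : ∀ r ∈ Ioo L (n - L), Tpr v τ r ∉ B r
    · rw [ind_true h, ind_true ((noFirst v B L τ).2 h)]
    · rw [ind_false h, ind_false (fun h' => h ((noFirst v B L τ).1 h'))]
  have h2 : ∑ j ∈ range (K + 1), (-1 : ℝ) ^ j * SS v B L j =
      (∑ τ : Equiv.Perm (Fin n), ∑ j ∈ range (K + 1), (-1 : ℝ) ^ j *
        esum (Ioo L (n - L)) (fun r => ind (FirstHit v B L τ r)) j) /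
          Fintype.card (Equiv.Perm (Fin n)) := by
    rw [sum_comm, sum_div]
    refine sum_congr rfl fun j _ => ?_
    rw [SS_eq, ← mul_sum, mul_div_assoc]
  have hb : ∀ τ : Equiv.Perm (Fin n), ∀ r, 0 ≤ ind (FirstHit v B L τ r) ∧
      ind (FirstHit v B L τ r) ≤ 1 := fun τ r => ⟨ind_nonneg _, ind_le_one _⟩
  refine ⟨fun hK => ?_, fun hK => ?_⟩
  · rw [h1, h2]
    apply div_le_div_of_nonneg_right _ hM
    exact sum_le_sum fun τ _ => (hBON _ _ (hb τ) K).1 hK
  · rw [h1, h2]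
    apply div_le_div_of_nonneg_right _ hM
    exact sum_le_sum fun τ _ => (hBON _ _ (hb τ) K).2 hK

end

/-- single probabilities outside the zone -/
theorem edge (hEX : G_EX) (G : Type) [CommGroup G] [Fintype G] (n L β : ℕ) (v : Fin n → G)
    (B : ℕ → Finset G) (hv : Function.Injective v) (hn : 1000 ≤ n) (hL : 100 * L ≤ n)
    (hB : ∀ r, (B r).card ≤ β) (r : ℕ) (h1 : 1 ≤ r) (h2 : r < n) (h3 : r ≤ L ∨ n - L ≤ r) :
    pr (fun τ : Equiv.Perm (Fin n) => Tpr v τ r ∈ B r) ≤ 2 * (β : ℝ) / n := by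
  have hnR : (1000 : ℝ) ≤ n := by exact_mod_cast hn
  have hLR : 100 * (L : ℝ) ≤ n := by exact_mod_cast hL
  have hβ0 : (0 : ℝ) ≤ β := by positivity
  have hfin : ∀ (c m : ℝ), 0 ≤ c → c ≤ β → (n : ℝ) - L ≤ m → c / m ≤ 2 * (β : ℝ) / n := by
    intro c m hc hcβ hm
    have hm0 : (n : ℝ) / 2 ≤ m := by linarith
    have hn0 : (0 : ℝ) < n / 2 := by linarith
    calc c / m ≤ β / (n / 2) := by
          apply div_le_div₀ hβ0 hcβ hn0 hm0
      _ = 2 * (β : ℝ) / n := by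
          field_simp
  rcases h3 with h3 | h3
  · have hD : (univ.filter (fun i : Fin n => (i : ℕ) < r)).card = r := by
      rw [Fin.card_filter_val_lt]
      omega
    have hne : (univ.filter (fun i : Fin n => (i : ℕ) < r)).Nonempty := by
      rw [← card_pos, hD]
      omega
    have h4 := hEX G n v (univ.filter (fun i : Fin n => (i : ℕ) < r)) (B r) hv hne
    rw [hD] at h4
    refine le_trans h4 (hfin _ _ (by positivity) (by exact_mod_cast hB r) ?_)
    have : (r : ℝ) ≤ L := by exact_mod_cast h3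
    linarith
  · classical
    obtain ⟨D, hDdef⟩ : ∃ D : Finset (Fin n), D = (univ.filter (fun i : Fin n => (i : ℕ) < r))ᶜ :=
      ⟨_, rfl⟩
    have hD : D.card = n - r := by
      rw [hDdef, card_compl, Fin.card_filter_val_lt, Fintype.card_fin]
      omega
    have hne : D.Nonempty := by
      rw [← card_pos, hD]
      omega
    obtain ⟨S, hS⟩ : ∃ S : Finset G, S = (B r).image (fun g => (∏ i, v i) / g) := ⟨_, rfl⟩
    have hSc : S.card ≤ β := by
      rw [hS]
      exact le_trans card_image_le (hB r)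
    have hprod : ∀ τ : Equiv.Perm (Fin n), Tpr v τ r * bprod v τ D = ∏ i, v i := by
      intro τ
      unfold Tpr bprod
      rw [hDdef, prod_mul_prod_compl]
      exact Equiv.prod_comp τ v
    have h4 := hEX G n v D S hv hne
    have h5 : pr (fun τ : Equiv.Perm (Fin n) => Tpr v τ r ∈ B r) ≤
        pr (fun τ : Equiv.Perm (Fin n) => bprod v τ D ∈ S) := by
      apply pr_mono
      intro τ hτ
      rw [hS, mem_image]
      refine ⟨_, hτ, ?_⟩
      rw [← hprod τ, mul_comm, mul_div_assoc, div_self', mul_one]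
    refine le_trans h5 (le_trans h4 (hfin _ _ (by positivity) (by exact_mod_cast hSc) ?_))
    rw [hD, Nat.cast_sub h2.le]
    have : ((n - L : ℕ) : ℝ) ≤ r := by exact_mod_cast h3
    rw [Nat.cast_sub (by omega)] at this
    linarith

theorem exp_diff (x y : ℝ) (hx : 0 ≤ x) (hxy : x ≤ y) :
    |Real.exp (-x) - Real.exp (-y)| ≤ y - x := by
  have h1 : Real.exp (-y) ≤ Real.exp (-x) := Real.exp_le_exp.mpr (by linarith)
  rw [abs_of_nonneg (by linarith)]
  have h2 : Real.exp (-x) ≤ 1 := Real.exp_le_one_iff.mpr (by linarith)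
  have h3 : Real.exp (-y) = Real.exp (-x) * Real.exp (-(y - x)) := by
    rw [← Real.exp_add]
    congr 1
    ring
  have h4 : 1 - (y - x) ≤ Real.exp (-(y - x)) := by
    have := Real.add_one_le_exp (-(y - x))
    linarith
  have h5 : 0 < Real.exp (-x) := Real.exp_pos _
  rw [h3]
  nlinarith [mul_le_mul_of_nonneg_left h4 h5.le]

theorem g_ptq (hFHS : G_FHS) (hEX : G_EX) (hBON : G_BON) (hPEX : G_PEX) : G_PTQ := by
  intro G _ _ n L β K v B hv hsc hn hL1 hL hβ hnβ hB hK h45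
  have hN1 : (1 : ℝ) ≤ (Fintype.card G : ℝ) := by
    have : 0 < Fintype.card G := Fintype.card_pos
    exact_mod_cast this
  obtain ⟨N, hN⟩ : ∃ N : ℝ, N = (Fintype.card G : ℝ) := ⟨_, rfl⟩
  rw [← hN] at hN1 h45 ⊢
  have hN0 : 0 < N := by linarith
  have hnR : (1000 : ℝ) ≤ n := by exact_mod_cast hn
  have hn0 : (0 : ℝ) < n := by linarith
  have hLR : 100 * (L : ℝ) ≤ n := by exact_mod_cast hL
  have hL1R : (1 : ℝ) ≤ L := by exact_mod_cast hL1
  have hβR : (1 : ℝ) ≤ β := by exact_mod_cast hβ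
  have hnβR : (n : ℝ) * β ≤ 4 * N := by rw [hN]; exact_mod_cast hnβ
  have hβN : (β : ℝ) / N ≤ 4 / n := by
    rw [div_le_div_iff₀ hN0 hn0]
    linarith
  obtain ⟨b, hb⟩ : ∃ b : ℕ → ℝ, b = fun r => ((B r).card : ℝ) / N := ⟨_, rfl⟩
  have hb0 : ∀ r, 0 ≤ b r := by
    intro r
    rw [hb]
    positivity
  have hbβ : ∀ r, b r ≤ β / N := by
    intro r
    rw [hb]
    apply div_le_div_of_nonneg_right _ hN0.le
    exact_mod_cast hB r
  have hb1 : ∀ r, b r ≤ 1 := by
    intro r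
    refine le_trans (hbβ r) (le_trans hβN ?_)
    rw [div_le_one hn0]
    linarith
  obtain ⟨Z, hZ⟩ : ∃ Z : Finset ℕ, Z = Ioo L (n - L) := ⟨_, rfl⟩
  have hZc : (Z.card : ℝ) ≤ n := by
    rw [hZ, Nat.card_Ioo]
    have : n - L - L - 1 ≤ n := by omega
    exact_mod_cast this
  have hsumZ : ∑ r ∈ Z, b r ≤ 4 := by
    calc ∑ r ∈ Z, b r ≤ ∑ _r ∈ Z, (β / N : ℝ) := sum_le_sum fun r _ => hbβ r
      _ = Z.card * (β / N : ℝ) := by rw [sum_const, nsmul_eq_mul]
      _ ≤ n * (β / N : ℝ) := by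
          apply mul_le_mul_of_nonneg_right hZc (by positivity)
      _ ≤ 4 := by
          rw [← mul_div_assoc, div_le_iff₀ hN0]
          exact hnβR
  have hsumZ0 : 0 ≤ ∑ r ∈ Z, b r := sum_nonneg fun r _ => hb0 r
  -- the zone
  obtain ⟨P0, hP0⟩ : ∃ P0 : ℝ, P0 = pr (fun τ : Equiv.Perm (Fin n) =>
    ∀ r ∈ Ioo L (n - L), Tpr v τ r ∉ B r) := ⟨_, rfl⟩
  obtain ⟨Q, hQ⟩ : ∃ Q : ℝ, Q = (10 * K + 20) * 4 ^ (K + 1) * ((L : ℝ) * β / n) +
    (4 * N) ^ (K + 1) * (4 / 5 : ℝ) ^ L := ⟨_, rfl⟩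
  have hLβ0 : (0 : ℝ) ≤ (L : ℝ) * β / n := by positivity
  have hSS : ∀ j, j ≤ K + 1 → |SS v B L j - esum Z b j| ≤ Q := by
    intro j hj
    have hcond : (4 / 5 : ℝ) ^ L ≤ 1 / (Fintype.card G : ℝ) ^ j := by
      rw [← hN]
      refine le_trans h45 ?_
      apply one_div_le_one_div_of_le (by positivity)
      exact pow_le_pow_right₀ hN1 hj
    have h1 := hFHS G n L β j v B hv hsc hn hL1 hL hβ hnβ hB hcond
    rw [← hN, ← hZ, ← hb] at h1
    refine le_trans h1 ?_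
    rw [hQ]
    apply add_le_add
    · apply mul_le_mul_of_nonneg_right _ hLβ0
      apply mul_le_mul
      · have : (j : ℝ) ≤ K + 1 := by exact_mod_cast hj
        linarith
      · exact pow_le_pow_right₀ (by norm_num) hj
      · positivity
      · positivity
    · apply mul_le_mul_of_nonneg_right _ (by positivity)
      exact pow_le_pow_right₀ (by linarith) hj
  have hQ0 : 0 ≤ Q := le_trans (abs_nonneg _) (hSS 0 (Nat.zero_le _))
  obtain ⟨hup, -⟩ := avg v B L hBON K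
  obtain ⟨-, hlo⟩ := avg v B L hBON (K + 1)
  have hup := hup hK
  have hlo := hlo hK.add_one
  rw [← hP0] at hup hlo
  have hbb : ∀ r, 0 ≤ b r ∧ b r ≤ 1 := fun r => ⟨hb0 r, hb1 r⟩
  have hup2 := (hBON Z b hbb K).1 hK
  have hlo2 := (hBON Z b hbb (K + 1)).2 hK.add_one
  have hdiff : |∑ j ∈ range (K + 1), (-1 : ℝ) ^ j * SS v B L j -
      ∑ j ∈ range (K + 1), (-1 : ℝ) ^ j * esum Z b j| ≤ (K + 1) * Q := by
    rw [← sum_sub_distrib]
    refine le_trans (abs_sum_le_sum_abs _ _) ?_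
    calc ∑ j ∈ range (K + 1), |(-1 : ℝ) ^ j * SS v B L j - (-1 : ℝ) ^ j * esum Z b j|
        ≤ ∑ _j ∈ range (K + 1), Q := by
          refine sum_le_sum fun j hj => ?_
          rw [← mul_sub, abs_mul, abs_pow, abs_neg, abs_one, one_pow, one_mul]
          rw [mem_range] at hj
          exact hSS j (by omega)
      _ = (K + 1) * Q := by
          rw [sum_const, card_range, nsmul_eq_mul]
          push_cast
          ring
  rw [sum_range_succ] at hlo hlo2
  have hodd : (-1 : ℝ) ^ (K + 1) = -1 := hK.add_one.neg_one_pow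
  rw [hodd] at hlo hlo2
  have hesum : esum Z b (K + 1) ≤ 4 ^ (K + 1) / ((K + 1).factorial : ℝ) := by
    refine le_trans (hPEX.2 Z b hb0 (K + 1)) ?_
    apply div_le_div_of_nonneg_right _ (by positivity)
    exact pow_le_pow_left₀ hsumZ0 hsumZ _
  have hSSK := hSS (K + 1) le_rfl
  have hmain : |P0 - ∏ r ∈ Z, (1 - b r)| ≤
      4 ^ (K + 1) / ((K + 1).factorial : ℝ) + (K + 2) * Q := by
    rw [abs_le] at hdiff hSSK ⊢
    constructor <;> nlinarith [hdiff.1, hdiff.2, hSSK.1, hSSK.2]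
  -- step (4)
  have h4a : |∏ r ∈ Z, (1 - b r) - Real.exp (-(∑ r ∈ Z, b r))| ≤ 16 * ((L : ℝ) * β / n) := by
    refine le_trans (hPEX.1 Z b hbb) ?_
    have h1 : ∑ r ∈ Z, (b r) ^ 2 ≤ ∑ r ∈ Z, (β / N : ℝ) * b r := by
      refine sum_le_sum fun r _ => ?_
      rw [pow_two]
      exact mul_le_mul_of_nonneg_right (hbβ r) (hb0 r)
    rw [← mul_sum] at h1
    have h2 : (β / N : ℝ) * ∑ r ∈ Z, b r ≤ (4 / n) * 4 :=
      mul_le_mul hβN hsumZ hsumZ0 (by positivity)
    have h3 : (4 / n : ℝ) * 4 ≤ 16 * ((L : ℝ) * β / n) := by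
      rw [div_mul_eq_mul_div, ← mul_div_assoc]
      apply div_le_div_of_nonneg_right _ hn0.le
      nlinarith
    linarith
  have hsub : Z ⊆ Ico 1 n := by
    intro r hr
    rw [hZ, mem_Ioo] at hr
    rw [mem_Ico]
    omega
  have hcompl : (((Ico 1 n) \ Z).card : ℝ) ≤ 2 * L := by
    have h1 : ((Ico 1 n) \ Z).card ≤ 2 * L := by
      rw [card_sdiff_of_subset hsub, hZ, Nat.card_Ico, Nat.card_Ioo]
      omega
    exact_mod_cast h1
  have h4b : |Real.exp (-(∑ r ∈ Z, b r)) - Real.exp (-(∑ r ∈ Ico 1 n, b r))| ≤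
      8 * ((L : ℝ) * β / n) := by
    have hs : ∑ r ∈ Ico 1 n, b r = ∑ r ∈ (Ico 1 n) \ Z, b r + ∑ r ∈ Z, b r :=
      (sum_sdiff hsub).symm
    have h0 : 0 ≤ ∑ r ∈ (Ico 1 n) \ Z, b r := sum_nonneg fun r _ => hb0 r
    refine le_trans (exp_diff _ _ hsumZ0 (by rw [hs]; linarith)) ?_
    rw [hs, add_sub_cancel_right]
    calc ∑ r ∈ (Ico 1 n) \ Z, b r ≤ ∑ _r ∈ (Ico 1 n) \ Z, (β / N : ℝ) :=
          sum_le_sum fun r _ => hbβ r
      _ = (((Ico 1 n) \ Z).card : ℝ) * (β / N) := by rw [sum_const, nsmul_eq_mul]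
      _ ≤ (2 * L) * (4 / n) := by
          apply mul_le_mul hcompl hβN (by positivity) (by positivity)
      _ ≤ 8 * ((L : ℝ) * β / n) := by
          rw [← mul_div_assoc, ← mul_div_assoc]
          apply div_le_div_of_nonneg_right _ hn0.le
          nlinarith
  -- step (3)
  obtain ⟨P1, hP1⟩ : ∃ P1 : ℝ, P1 = pr (fun τ : Equiv.Perm (Fin n) =>
    ∀ r, 1 ≤ r → r < n → Tpr v τ r ∉ B r) := ⟨_, rfl⟩
  have h10 : P1 ≤ P0 := by
    rw [hP1, hP0]
    apply pr_mono
    intro τ h r hr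
    rw [mem_Ioo] at hr
    exact h r (by omega) (by omega)
  have h01 : P0 ≤ P1 + 4 * ((L : ℝ) * β / n) := by
    rw [hP1, hP0]
    refine le_trans (pr_union ((Ico 1 n) \ Z) _ (fun τ : Equiv.Perm (Fin n) =>
      ∀ r, 1 ≤ r → r < n → Tpr v τ r ∉ B r) (fun r τ => Tpr v τ r ∈ B r) ?_) ?_
    · intro τ h
      by_cases hc : ∀ r, 1 ≤ r → r < n → Tpr v τ r ∉ B r
      · exact Or.inl hc
      · right
        push Not at hc
        obtain ⟨r, hr1, hr2, hr3⟩ := hc
        refine ⟨r, ?_, hr3⟩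
        rw [mem_sdiff, mem_Ico]
        refine ⟨⟨hr1, hr2⟩, fun hrZ => ?_⟩
        rw [hZ] at hrZ
        exact h r hrZ hr3
    · apply add_le_add le_rfl
      calc ∑ r ∈ (Ico 1 n) \ Z, pr (fun τ : Equiv.Perm (Fin n) => Tpr v τ r ∈ B r)
          ≤ ∑ _r ∈ (Ico 1 n) \ Z, (2 * (β : ℝ) / n) := by
            refine sum_le_sum fun r hr => ?_
            rw [mem_sdiff, mem_Ico, hZ, mem_Ioo] at hr
            obtain ⟨⟨hr1, hr2⟩, hr3⟩ := hr
            refine edge hEX G n L β v B hv hn hL hB r hr1 hr2 ?_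
            by_contra hcon
            push Not at hcon
            exact hr3 hcon
        _ = (((Ico 1 n) \ Z).card : ℝ) * (2 * (β : ℝ) / n) := by rw [sum_const, nsmul_eq_mul]
        _ ≤ (2 * L) * (2 * (β : ℝ) / n) := by
            apply mul_le_mul_of_nonneg_right hcompl (by positivity)
        _ = 4 * ((L : ℝ) * β / n) := by ring
  have hfinal : |P1 - Real.exp (-(∑ r ∈ Ico 1 n, b r))| ≤
      4 ^ (K + 1) / ((K + 1).factorial : ℝ) + (K + 2) * Q + 28 * ((L : ℝ) * β / n) := by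
    rw [abs_le] at hmain h4a h4b ⊢
    constructor <;> linarith [hmain.1, hmain.2, h4a.1, h4a.2, h4b.1, h4b.2]
  rw [hP1, hb, hQ] at hfinal
  exact hfinal

end Pool.Agent.Helper48.PF
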